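import Pool.Agent.W70.HRC.Stm

/-!
# Project HRC (helper70), part EXA: no other rough positions in a short window
-/

set_option autoImplicit false

open Finset

namespace Pool.Agent.W101.HRC

open Pool.Agent.H361R2.PP Pool.Agent.W70.HR Pool.Agent.W70.HRC

lemma rg_nonneg (P : Finset ℕ) (a n : ℕ) : 0 ≤ rg P a n := by
  unfold rg
  split_ifs <;> norm_num

lemma rU_nonneg (δ : ℝ) (X : ℕ) (U : Finset ℕ) (n : ℕ) : 0 ≤ rU δ X U n :=
  prod_nonneg fun _ _ => rg_nonneg _ _ _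

lemma Bw_mono {Λ Λ' : ℝ} (h : Λ ≤ Λ') {X : ℕ} (_hX : 1 ≤ X) (b : ℕ) : Bw Λ X b ⊆ Bw Λ' X b := by
  intro a ha
  have hl : 0 ≤ Real.log X := Real.log_natCast_nonneg X
  simp only [Bw, BB, mem_filter, mem_Icc] at ha ⊢
  exact ⟨⟨ha.1.1, ha.1.2.trans (Nat.floor_mono (mul_le_mul_of_nonneg_right h hl))⟩, ha.2⟩

lemma Om_succ (δ : ℝ) (X N : ℕ) : Om δ X (N + 1) = VV δ X * Om δ X N := by
  unfold Om
  rw [pow_succ]
  ring

lemma Om_nonneg {δ : ℝ} {X : ℕ} (h : 0 < VV δ X) (N : ℕ) : 0 ≤ Om δ X N := by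
  unfold Om
  positivity

lemma card_Bw_le {Λ : ℝ} {X b : ℕ}
    (h : |(((BB X b ⌊Λ * Real.log X⌋₊).filter
        (fun a : ℕ => (0 : ℝ) < a ∧ (a : ℝ) ≤ Λ * Real.log X)).card : ℝ) -
      (Λ * Real.log X - 0) * (Nat.totient (Wm X) / Wm X)| ≤
      1 * ((Λ * Real.log X - 0) * (Nat.totient (Wm X) / Wm X)))
    (h0 : 0 ≤ Λ * Real.log X) :
    ((Bw Λ X b).card : ℝ) ≤ 2 * (Λ * Real.log X * (Nat.totient (Wm X) / Wm X)) := by
  have e : (BB X b ⌊Λ * Real.log X⌋₊).filter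
      (fun a : ℕ => (0 : ℝ) < a ∧ (a : ℝ) ≤ Λ * Real.log X) = Bw Λ X b := by
    rw [Bw]
    refine filter_true_of_mem fun a ha => ?_
    simp only [BB, mem_filter, mem_Icc] at ha
    exact ⟨by exact_mod_cast ha.1.1, (Nat.le_floor_iff h0).1 ha.1.2⟩
  rw [e, sub_zero, one_mul] at h
  have := (abs_le.1 h).2
  linarith

open Classical in
/-- the deterministic part: if there is no other rough position then the primes are consecutive -/
lemma cns_of {k T K : ℕ} {X b n : ℕ} {Λ δ : ℝ} {H : Fin T → Fin K → ℕ}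
    (hH : ∀ g i, H g i ∈ Bw Λ X b) (hn : n ∈ SI X b) (hWX : Wm X < X)
    (hP : ∀ p ∈ P1 (HH X) (JJ δ X), p < X)
    (hex : ∀ a ∈ Bw Λ X b, rg (P1 (HH X) (JJ δ X)) a n = 1 → ∃ g i, H g i = a)
    (hw : Wdw k n H) :
    ∃ (S : Finset (Fin T)) (c : Fin T → Fin K), S.card = k + 1 ∧
      Cns n (S.image (fun g => H g (c g))) := by
  obtain ⟨S, c, hS, hpr, hcv⟩ := hw
  have hn' := hn
  simp only [SI, mem_filter, mem_Ico] at hn'
  obtain ⟨⟨hXn, _⟩, hnb⟩ := hn'
  refine ⟨S, c, hS, ?_, ?_⟩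
  · intro a ha
    obtain ⟨g, hg, rfl⟩ := mem_image.1 ha
    exact hpr g hg
  · intro j hj1 hj2 hjp
    obtain ⟨a1, ha1, hle1⟩ := hj1
    obtain ⟨g1, hg1, rfl⟩ := mem_image.1 ha1
    obtain ⟨a2, ha2, hle2⟩ := hj2
    obtain ⟨g2, hg2, rfl⟩ := mem_image.1 ha2
    have hWpos : 0 < Wm X := primorial_pos _
    have hjB : j ∈ Bw Λ X b := by
      have h1 := hH g1 (c g1)
      have h2 := hH g2 (c g2)
      simp only [Bw, BB, mem_filter, mem_Icc] at h1 h2 ⊢
      refine ⟨⟨h1.1.1.trans hle1, hle2.trans h2.1.2⟩, ?_⟩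
      have hco : (n + j).Coprime (Wm X) := by
        rw [Nat.Prime.coprime_iff_not_dvd hjp]
        intro hd
        have := Nat.le_of_dvd hWpos hd
        omega
      have e : n + j = (b + j) + Wm X * (n / Wm X) := by
        have := Nat.mod_add_div n (Wm X)
        rw [hnb] at this
        omega
      rw [e, Nat.coprime_add_mul_left_left] at hco
      exact hco
    have hjr : rg (P1 (HH X) (JJ δ X)) j n = 1 := by
      unfold rg
      rw [if_pos]
      intro p hp hd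
      have hpX := hP p hp
      have hpp : p.Prime := by
        simp only [P1, mem_filter] at hp
        exact hp.2.1
      have := (Nat.prime_dvd_prime_iff_eq hpp hjp).1 hd
      omega
    obtain ⟨g, i, hgi⟩ := hex j hjB hjr
    obtain ⟨g', hg', he⟩ := hcv g i (by rw [hgi]; exact hjp) ⟨g1, hg1, by rw [hgi]; exact hle1⟩
      ⟨g2, hg2, by rw [hgi]; exact hle2⟩
    exact mem_image.2 ⟨g', hg', by rw [he, hgi]⟩

open Classical in
lemma count {k T K : ℕ} {X b : ℕ} {Λ δ : ℝ} {H : Fin T → Fin K → ℕ} (hΛ1 : Λ ≤ 1) (hX1 : 1 ≤ X)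
    (hH : ∀ g i, H g i ∈ Bw Λ X b)
    (hinj : Function.Injective (fun x : Fin T × Fin K => H x.1 x.2))
    (hWX : Wm X < X) (hP : ∀ p ∈ P1 (HH X) (JJ δ X), p < X) (hVV : 0 < VV δ X)
    (hU : ∀ U ⊆ Bw 1 X b, U.card ≤ T * K + 1 → ∑ n ∈ SI X b, rU δ X U n ≤ 2 * Om δ X U.card) :
    (hitsP δ k X b T K H : ℝ) ≤ hitsC δ Λ k X b T K H +
      (Bw Λ X b).card * (2 * (VV δ X * Om δ X (T * K))) := by
  set I : Finset ℕ := univ.image (fun x : Fin T × Fin K => H x.1 x.2) with hI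
  have hIcard : I.card = T * K := by
    rw [hI, card_image_of_injective _ hinj]
    simp
  have hIB : I ⊆ Bw Λ X b := by
    intro a ha
    obtain ⟨x, _, rfl⟩ := mem_image.1 ha
    exact hH x.1 x.2
  set Bad : Finset ℕ := (SI X b).filter (fun n =>
    (∀ g i, rg (P1 (HH X) (JJ δ X)) (H g i) n = 1) ∧
      ∃ a ∈ Bw Λ X b \ I, rg (P1 (HH X) (JJ δ X)) a n = 1) with hBad
  have hsub : (SI X b).filter (fun n => (∀ g i, rg (P1 (HH X) (JJ δ X)) (H g i) n = 1) ∧
      Wdw k n H) ⊆ ((SI X b).filter (fun n => (∀ g i, rg (P1 (HH X) (JJ δ X)) (H g i) n = 1) ∧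
    (∀ a ∈ Bw Λ X b, rg (P1 (HH X) (JJ δ X)) a n = 1 → ∃ g i, H g i = a) ∧
    ∃ (S : Finset (Fin T)) (c : Fin T → Fin K), S.card = k + 1 ∧
      Cns n (S.image (fun g => H g (c g))))) ∪ Bad := by
    intro n hn
    obtain ⟨hnS, hA, hW⟩ := mem_filter.1 hn
    by_cases hb : ∃ a ∈ Bw Λ X b \ I, rg (P1 (HH X) (JJ δ X)) a n = 1
    · exact mem_union_right _ (mem_filter.2 ⟨hnS, hA, hb⟩)
    · have hex : ∀ a ∈ Bw Λ X b, rg (P1 (HH X) (JJ δ X)) a n = 1 → ∃ g i, H g i = a := by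
        intro a ha har
        by_contra hne
        refine hb ⟨a, mem_sdiff.2 ⟨ha, fun haI => hne ?_⟩, har⟩
        obtain ⟨x, _, hx⟩ := mem_image.1 haI
        exact ⟨x.1, x.2, hx⟩
      exact mem_union_left _ (mem_filter.2 ⟨hnS, hA, hex, cns_of hH hnS hWX hP hex hW⟩)
  have hbad : (Bad.card : ℝ) ≤ (Bw Λ X b).card * (2 * (VV δ X * Om δ X (T * K))) := by
    have h1 : (Bad.card : ℝ) ≤ ∑ n ∈ SI X b, ∑ a ∈ Bw Λ X b \ I, rU δ X (insert a I) n := by
      have e : (Bad.card : ℝ) = ∑ n ∈ Bad, (1 : ℝ) := by simp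
      rw [e]
      refine (sum_le_sum fun n hn => ?_).trans (sum_le_sum_of_subset_of_nonneg
        (filter_subset _ _) fun n _ _ => sum_nonneg fun a _ => rU_nonneg _ _ _ _)
      obtain ⟨_, hA, a, ha, har⟩ := mem_filter.1 hn
      refine le_trans ?_ (single_le_sum (f := fun a => rU δ X (insert a I) n)
        (fun a _ => rU_nonneg _ _ _ _) ha)
      show (1 : ℝ) ≤ rU δ X (insert a I) n
      have : rU δ X (insert a I) n = 1 := by
        unfold rU
        refine prod_eq_one fun a' ha' => ?_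
        rcases mem_insert.1 ha' with rfl | ha'
        · exact har
        · obtain ⟨x, _, rfl⟩ := mem_image.1 ha'
          exact hA x.1 x.2
      rw [this]
    have h2 : ∑ n ∈ SI X b, ∑ a ∈ Bw Λ X b \ I, rU δ X (insert a I) n ≤
        ∑ a ∈ Bw Λ X b \ I, 2 * (VV δ X * Om δ X (T * K)) := by
      rw [sum_comm]
      refine sum_le_sum fun a ha => ?_
      obtain ⟨haB, haI⟩ := mem_sdiff.1 ha
      have hc : (insert a I).card = T * K + 1 := by
        rw [card_insert_of_notMem haI, hIcard]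
      have h3 := hU (insert a I) (insert_subset (Bw_mono hΛ1 hX1 b haB)
        (hIB.trans (Bw_mono hΛ1 hX1 b))) hc.le
      rw [hc, Om_succ] at h3
      exact h3
    refine (h1.trans h2).trans ?_
    rw [sum_const, nsmul_eq_mul]
    refine mul_le_mul_of_nonneg_right ?_ ?_
    · exact_mod_cast card_le_card sdiff_subset
    · have := Om_nonneg hVV (T * K)
      positivity
  have h4 : (hitsP δ k X b T K H : ℝ) ≤ hitsC δ Λ k X b T K H + Bad.card := by
    unfold hitsP hitsC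
    exact_mod_cast (card_le_card hsub).trans (card_union_le _ _)
  linarith

theorem exa : S_EXA := by
  classical
  intro hCnt hMer hW k T K hT hK hMT
  obtain ⟨δ, c, hδ0, hδ1, hc, X₁, hX₁⟩ := hMT
  obtain ⟨C, hC, hMer'⟩ := hMer
  have hδ1' : δ ≤ 1 := by linarith
  obtain ⟨X₂, hX₂⟩ := hMer' δ hδ0 hδ1'
  have hC0 : 0 < C := by linarith
  set Λ : ℝ := min 1 (c * δ / (8 * C)) with hΛdef
  have hΛ0 : 0 < Λ := lt_min one_pos (by positivity)
  have hΛ1 : Λ ≤ 1 := min_le_left _ _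
  have hΛ2 : Λ ≤ c * δ / (8 * C) := min_le_right _ _
  obtain ⟨X₃, hX₃⟩ := hCnt 1 Λ Λ one_pos hΛ0 hΛ0
  obtain ⟨X₄, hX₄⟩ := hW.2 δ hδ0 hδ1'
  refine ⟨Λ, hΛ0, hΛ1, δ, c / 2, hδ0, hδ1, by positivity, max (max X₁ X₂) (max (max X₃ X₄) 16),
    fun X hX b hb => ?_⟩
  have hX1 : X₁ ≤ X := le_trans (le_trans (le_max_left _ _) (le_max_left _ _)) hX
  have hX2 : X₂ ≤ X := le_trans (le_trans (le_max_right _ _) (le_max_left _ _)) hX
  have hX3 : X₃ ≤ X := le_trans (le_trans (le_trans (le_max_left _ _) (le_max_left _ _))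
    (le_max_right _ _)) hX
  have hX4 : X₄ ≤ X := le_trans (le_trans (le_trans (le_max_right _ _) (le_max_left _ _))
    (le_max_right _ _)) hX
  have hX16 : 16 ≤ X := le_trans (le_trans (le_max_right _ _) (le_max_right _ _)) hX
  obtain ⟨hVV, hU, hP⟩ := hX₁ X hX1 b hb
  refine ⟨hVV, fun H hH hinj => ?_⟩
  have hX1' : 1 ≤ X := by omega
  have hXr : (16 : ℝ) ≤ X := by exact_mod_cast hX16
  have hlog1 : 1 ≤ Real.log X := by
    rw [Real.le_log_iff_exp_le (by linarith)]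
    have := Real.exp_one_lt_d9
    linarith
  have hlogX : Real.log X < X := by
    have := Real.log_le_sub_one_of_pos (show (0 : ℝ) < X by linarith)
    linarith
  have hWX : Wm X < X := by
    have h1 := hW.1 X hX16
    have h2 : Real.log X ^ (7 / 20 : ℝ) ≤ Real.log X := by
      calc Real.log X ^ (7 / 20 : ℝ) ≤ Real.log X ^ (1 : ℝ) :=
            Real.rpow_le_rpow_of_exponent_le hlog1 (by norm_num)
        _ = Real.log X := Real.rpow_one _
    have : (Wm X : ℝ) < X := by linarith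
    exact_mod_cast this
  have hPX : ∀ p ∈ P1 (HH X) (JJ δ X), p < X := by
    intro p hp
    simp only [P1, mem_filter, mem_range] at hp
    have h1 := (hX₄ X hX4).1
    have h2 : (X : ℝ) ^ δ ≤ X := by
      calc (X : ℝ) ^ δ ≤ (X : ℝ) ^ (1 : ℝ) :=
            Real.rpow_le_rpow_of_exponent_le (by linarith) hδ1'
        _ = X := Real.rpow_one _
    have h3 : ((2 ^ 2 ^ JJ δ X : ℕ) : ℝ) ≤ X := by
      push_cast
      linarith
    have h4 : 2 ^ 2 ^ JJ δ X ≤ X := by exact_mod_cast h3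
    omega
  have hcnt := count (k := k) hΛ1 hX1' hH hinj hWX hPX hVV hU
  have hPc := hP H (fun g i => Bw_mono hΛ1 hX1' b (hH g i)) hinj
  have hBc := card_Bw_le (hX₃ X hX3 b 0 (Λ * Real.log X) le_rfl (by simp) le_rfl)
    (by positivity)
  have hM := (hX₂ X hX2).2.1
  have hM' : VV δ X * ((Nat.totient (Wm X) : ℝ) / Wm X) * (δ * Real.log X) ≤ C := hM
  have hOm := Om_nonneg hVV (T * K)
  have key : ((Bw Λ X b).card : ℝ) * (2 * (VV δ X * Om δ X (T * K))) ≤
      c / 2 * Om δ X (T * K) := by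
    set φ : ℝ := (Nat.totient (Wm X) : ℝ) / Wm X with hφ
    have hφ0 : 0 ≤ φ := by positivity
    calc ((Bw Λ X b).card : ℝ) * (2 * (VV δ X * Om δ X (T * K)))
        ≤ (2 * (Λ * Real.log X * φ)) * (2 * (VV δ X * Om δ X (T * K))) :=
          mul_le_mul_of_nonneg_right hBc (by positivity)
      _ = 4 * Λ / δ * (VV δ X * φ * (δ * Real.log X)) * Om δ X (T * K) := by
          field_simp
          ring
      _ ≤ 4 * Λ / δ * C * Om δ X (T * K) := by
          refine mul_le_mul_of_nonneg_right (mul_le_mul_of_nonneg_left hM' (by positivity)) hOm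
      _ ≤ c / 2 * Om δ X (T * K) := by
          refine mul_le_mul_of_nonneg_right ?_ hOm
          have h5 : 4 * Λ / δ * C = Λ * (4 * C / δ) := by ring
          rw [h5]
          calc Λ * (4 * C / δ) ≤ c * δ / (8 * C) * (4 * C / δ) :=
                mul_le_mul_of_nonneg_right hΛ2 (by positivity)
            _ = c / 2 := by
                field_simp
                norm_num
  have h7 : c * Om δ X (T * K) = c / 2 * Om δ X (T * K) + c / 2 * Om δ X (T * K) := by ring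
  linarith

end Pool.Agent.W101.HRC
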